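import Pool.Agent.N85.WM.Fin

/-!
# Alperin's weight conjecture is a congruence modulo `p`

`F` is an algebraically closed field of characteristic `p` and `red` a ring homomorphism from the ring
of all complex algebraic integers to `F`. The elements of the group algebra `F[G]` are the functions
`G → F`, those of its centre the class functions. The blocks of `G` are given by their central
characters.

Proof. (1) If `e` is the idempotent of `B`, then the blocks of `G ≀ C_p` on which `e ⊗ ⋯ ⊗ e` acts as `1`
contain together `(l^p + (p-1) l)/p` irreducible characters, `l = l(B)`, and similarly for weights. So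
`l(B) ≡ w(B)` modulo `p^k` for all blocks of all groups of the class implies the same modulo `p^(k+1)`.
(2) The sum of the central characters of defect zero of a group `H` is the trace of the multiplication
with the sum of all `p`-elements on the centre of `F[H]`. So the sum over the weights of the values of
their central characters at the class of `g` is, modulo `p`, a number of solutions of equations; the same
holds for the sum over the irreducible `F`-characters.
-/

set_option autoImplicit false

open scoped Classical

noncomputable section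

namespace Pool.Agent.Results.MP_78bba1_al.CommutatorCongruence

/-- `φ` is the character of an irreducible finite-dimensional representation of `G` over `K`. -/
def IsIrr {K : Type} [Field K] {G : Type} [Group G] (φ : G → K) : Prop :=
  ∃ (V : Type) (_ : AddCommGroup V) (_ : Module K V) (_ : FiniteDimensional K V)
    (ρ : Representation K G V), ρ.IsIrreducible ∧ φ = ρ.character

/-- `f` is a class function. -/
def IsClassFun {K G : Type} [Group G] (f : G → K) : Prop := ∀ g x : G, f (g * x * g⁻¹) = f x

/-- `B` is (the central character of) a block of `G`: an algebra homomorphism from the centre of `F[G]`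
to `F`. (The values of `B` at functions which are not class functions are irrelevant.) -/
def IsBlock {F : Type} [Field F] {G : Type} [Group G] (B : (G → F) → F) : Prop :=
  (∀ f g : G → F, IsClassFun f → IsClassFun g → B (f + g) = B f + B g) ∧
  (∀ (a : F) (f : G → F), IsClassFun f → B (a • f) = a * B f) ∧
  B (Pi.single 1 1) = 1 ∧
  ∀ f g : G → F, IsClassFun f → IsClassFun g →
    B (fun x => ∑ᶠ y : G, f y * g (y⁻¹ * x)) = B f * B g

/-- `l(B)`: the number of the irreducible characters of `G` over `F` in the block `B`, that is, on which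
every central element `f` of `F[G]` acts as the scalar `B f`. -/
def lB {F : Type} [Field F] {G : Type} [Group G] (B : (G → F) → F) : ℕ :=
  Nat.card {φ : G → F // IsIrr φ ∧
    ∀ f : G → F, IsClassFun f → ∀ x : G, ∑ᶠ g : G, f g * φ (g * x) = B f * φ x}

/-- The reduction map `red`, extended by zero to all complex numbers. -/
def redC {F : Type} [Field F] (red : integralClosure ℤ ℂ →+* F) (a : ℂ) : F :=
  if h : IsIntegral ℤ a then red ⟨a, h⟩ else 0

/-- `∑_C f(C) · red (|C| χ(C) / χ(1))`, the sum over the conjugacy classes `C` of `J`: the value of the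
reduction of the central character of `χ` at the central element `f` of `F[J]`. -/
def centralValue {F : Type} [Field F] (red : integralClosure ℤ ℂ →+* F) {J : Type} [Group J]
    (χ : J → ℂ) (f : J → F) : F :=
  ∑ᶠ C : ConjClasses J, f C.out * redC red ((Nat.card C.carrier : ℂ) * χ C.out / χ 1)

/-- `χ` is the inflation to `J` of an irreducible complex character of `J/Q` of `p`-defect zero (for a
normal subgroup `Q` of `J`). -/
def IsInfDefectZero (p : ℕ) {J : Type} [Group J] (Q : Subgroup J) (χ : J → ℂ) : Prop :=
  IsIrr χ ∧ (∀ q ∈ Q, ∀ x : J, χ (q * x) = χ x) ∧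
    ∃ n : ℕ, χ 1 = (n : ℂ) ∧
      n.factorization p + (Nat.card Q).factorization p = (Nat.card J).factorization p

/-- Conjugacy of `p`-subgroups of `G`. -/
def pSub (p : ℕ) (G : Type) [Group G] : Setoid {Q : Subgroup G // IsPGroup p Q} where
  r Q R := ∃ g : G, R.1 = Q.1.map (MulAut.conj g).toMonoidHom
  iseqv :=
  { refl := fun Q => ⟨1, by ext x; simp [Subgroup.mem_map]⟩
    symm := by
      rintro Q R ⟨g, hg⟩
      refine ⟨g⁻¹, ?_⟩
      rw [hg, Subgroup.map_map]
      ext x
      simp [Subgroup.mem_map, mul_assoc]
    trans := by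
      rintro Q R S ⟨g, hg⟩ ⟨h, hh⟩
      refine ⟨h * g, ?_⟩
      rw [hh, hg, Subgroup.map_map]
      ext x
      simp [Subgroup.mem_map, mul_assoc] }

/-- `w(B)`: the number of `G`-classes of weights of `B`. For representatives `Q` of the `G`-classes of
`p`-subgroups count the characters `χ` of `N_G(Q)` inflated from characters of `N_G(Q)/Q` of defect zero
such that the block of `G` induced by the block of `χ` is `B`, that is, the reduction of the central
character of `χ` takes the value `B f` at the restriction to `N_G(Q)` of every class function `f`. -/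
def wB (p : ℕ) {F : Type} [Field F] (red : integralClosure ℤ ℂ →+* F) {G : Type} [Group G]
    (B : (G → F) → F) : ℕ :=
  ∑ᶠ q : Quotient (pSub p G),
    Nat.card {χ : Subgroup.normalizer (q.out.1 : Set G) → ℂ //
      IsInfDefectZero p (q.out.1.subgroupOf (Subgroup.normalizer (q.out.1 : Set G))) χ ∧
      ∀ f : G → F, IsClassFun f → centralValue red χ (fun x => f x) = B f}

/-- The cyclic group of order `p` acts on `G^p` by shifts. -/
def shift (p : ℕ) (G : Type) [Group G] : Multiplicative (ZMod p) →* MulAut (ZMod p → G) where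
  toFun t :=
    { toFun := fun x i => x (i - t.toAdd)
      invFun := fun x i => x (i + t.toAdd)
      left_inv := fun x => by funext i; simp
      right_inv := fun x => by funext i; simp
      map_mul' := fun x y => rfl }
  map_one' := by ext x i; simp
  map_mul' s t := by
    ext x i
    simp only [MulAut.mul_apply, MulEquiv.coe_mk, Equiv.coe_fn_mk, toAdd_mul]
    congr 1
    ring

/-- The wreath product `G ≀ C_p`. -/
abbrev Wreath (p : ℕ) (G : Type) [Group G] : Type :=
  (ZMod p → G) ⋊[shift p G] Multiplicative (ZMod p)

/-- `x` is a `p`-element. -/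
def IsPElement (p : ℕ) {G : Type} [Group G] (x : G) : Prop := ∃ j : ℕ, orderOf x = p ^ j

/-- `T(Q, g)`: the number of the triples `(x, y, k)` of elements of `N_G(Q)` such that `k` is conjugate
to `g` in `G` and `k[x,y]` is a `p`-element. -/
def T (p : ℕ) {G : Type} [Group G] (Q : Subgroup G) (g : G) : ℕ :=
  Nat.card {t : G × G × G // (t.1 ∈ Subgroup.normalizer (Q : Set G) ∧
    t.2.1 ∈ Subgroup.normalizer (Q : Set G) ∧ t.2.2 ∈ Subgroup.normalizer (Q : Set G)) ∧
    IsConj g t.2.2 ∧ IsPElement p (t.2.2 * (t.1 * t.2.1 * t.1⁻¹ * t.2.1⁻¹))}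

/-- `R(g)`: the number of the triples `(x, y, k)` of elements of `G` such that `x` has order prime to
`p`, `k` is conjugate to `g` and `k[x,y]` is a `p`-element which commutes with `yxy⁻¹`. -/
def R (p : ℕ) {G : Type} [Group G] (g : G) : ℕ :=
  Nat.card {t : G × G × G // ¬ p ∣ orderOf t.1 ∧ IsConj g t.2.2 ∧
    IsPElement p (t.2.2 * (t.1 * t.2.1 * t.1⁻¹ * t.2.1⁻¹)) ∧
    Commute (t.2.2 * (t.1 * t.2.1 * t.1⁻¹ * t.2.1⁻¹)) (t.2.1 * t.1 * t.2.1⁻¹)}

theorem block_iff {F : Type} [Field F] {G : Type} [Group G] (B : (G → F) → F) :
    IsBlock B ↔ Pool.Agent.Y63.NV.IsBlock B :=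
  ⟨fun h => ⟨h.1, h.2.1, h.2.2.1, h.2.2.2⟩, fun h => ⟨h.add, h.smul, h.one, h.mul⟩⟩

theorem wB_eq (p : ℕ) {F : Type} [Field F] (red : integralClosure ℤ ℂ →+* F) {G : Type} [Group G]
    (B : (G → F) → F) : wB p red B = Pool.Agent.N85.WM.numWts p red B := by
  refine finsum_congr fun q => Nat.card_congr (Equiv.subtypeEquivRight fun χ => ?_)
  exact ⟨fun h => ⟨⟨h.1.1, h.1.2.1, h.1.2.2⟩, h.2⟩,
    fun h => ⟨⟨h.1.irr, h.1.inflated, h.1.defectZero⟩, h.2⟩⟩

/-- **Alperin's weight conjecture is a congruence modulo `p`.** Let `X` be a class of groups (for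
instance all groups) such that `G ≀ C_p` is in `X` for every finite group `G` in `X`. The following are
equivalent.
(a) `l(B) = w(B)` for all blocks `B` of all finite groups in `X` (the blockwise weight conjecture).
(b) `l(B) ≡ w(B)` modulo `p` for all blocks `B` of all finite groups in `X`.
(c) For all finite groups `G` in `X` and all `g ∈ G`, `R(g)` is congruent modulo `p |G|_p` to the sum of
`T(Q, g)/|Q|` over all `p`-subgroups `Q` of `G`.
The terms `T(Q, g)/|Q|` of this sum are integers. -/
theorem result (p : ℕ) [Fact p.Prime] (F : Type) [Field F] [IsAlgClosed F] [CharP F p]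
    (red : integralClosure ℤ ℂ →+* F) (X : ∀ (G : Type) [Group G], Prop)
    (hX : ∀ (G : Type) [Group G] [Finite G], X G → X (Wreath p G)) :
    ((∀ (G : Type) [Group G] [Finite G], X G → ∀ B : (G → F) → F, IsBlock B →
        lB B = wB p red B) ↔
      ∀ (G : Type) [Group G] [Finite G], X G → ∀ B : (G → F) → F, IsBlock B →
        lB B ≡ wB p red B [MOD p]) ∧
    ((∀ (G : Type) [Group G] [Finite G], X G → ∀ B : (G → F) → F, IsBlock B →
        lB B = wB p red B) ↔
      ∀ (G : Type) [Group G] [Finite G], X G → ∀ g : G,
        R p g ≡ ∑ᶠ Q : {Q : Subgroup G // IsPGroup p Q}, T p Q.1 g / Nat.card Q.1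
          [MOD p ^ ((Nat.card G).factorization p + 1)]) ∧
    ∀ (G : Type) [Group G] [Finite G] (Q : Subgroup G), IsPGroup p Q → ∀ g : G,
      Nat.card Q ∣ T p Q g := by
  obtain ⟨h1, h2, -⟩ := Pool.Agent.N85.WM.bawc_cong p F red X hX
  have e1 : (∀ (G : Type) [Group G] [Finite G], X G → ∀ B : (G → F) → F, IsBlock B →
      lB B = wB p red B) ↔
      ∀ (G : Type) [Group G] [Finite G], X G → Pool.Agent.Y63.NV.BAWC p red G := by
    constructor
    · intro h G _ _ hG B hB
      have h3 := h G hG B ((block_iff B).mpr hB)
      rw [wB_eq] at h3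
      exact h3
    · intro h G _ _ hG B hB
      rw [wB_eq]
      exact h G hG B ((block_iff B).mp hB)
  have e2 : (∀ (G : Type) [Group G] [Finite G], X G → ∀ B : (G → F) → F, IsBlock B →
      lB B ≡ wB p red B [MOD p]) ↔
      ∀ (G : Type) [Group G] [Finite G], X G → ∀ B : (G → F) → F,
        Pool.Agent.Y63.NV.IsBlock B →
        Pool.Agent.Y63.NV.numIrrBlock B ≡ Pool.Agent.N85.WM.numWts p red B [MOD p] := by
    constructor
    · intro h G _ _ hG B hB
      have h3 := h G hG B ((block_iff B).mpr hB)
      rw [wB_eq] at h3
      exact h3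
    · intro h G _ _ hG B hB
      rw [wB_eq]
      exact h G hG B ((block_iff B).mp hB)
  refine ⟨?_, ?_, fun _ _ _ Q hQ g => ⟨_, ((mul_assoc _ _ _).symm.trans
    (Pool.Agent.N85.WM.norm_trip Q hQ g)).symm⟩⟩
  · rw [e1, e2]
    exact h1
  · rw [e1]
    exact h2

end Pool.Agent.Results.MP_78bba1_al.CommutatorCongruence
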