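import Pool.Agent.N20.EW.Wts

/-!
MP_78bba1_al (Alperin's weight conjecture): the blockwise weight conjecture is equivalent to its
equivariant form for single automorphisms.

Notation (`Pool/Agent/N20/EW/Wts.lean`, `Stm2.lean`, `Pool/Agent/Y63/NV/Defs.lean`). `G` is a finite
group, `F` an algebraically closed field of characteristic `p`.
* `IsIrrTrace φ`: `φ : G → F` is the character of an irreducible representation of `G` over `F`. The map
  from the isomorphism classes of simple `F[G]`-modules to their characters is injective;
* blocks are given by their central characters, homomorphisms `B` from the centre of `F[G]` to `F`
  (`IsBlock`); `red` is a ring homomorphism from the complex algebraic integers to `F`;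
  `centralValue red χ` is the reduction of the central character of the irreducible complex character
  `χ`, that is, the block of `χ`;
* `IBrB B` is the set of the irreducible characters over `F` in the block `B`;
* `IsWt p Q ξ`: `ξ` is the inflation of a character of `p`-defect zero of the quotient by `Q`. A weight of
  `G` is a pair `(R, ξ)`, where `R` is a `p`-subgroup and `ξ` is such a character of `N_G(R)` for
  the normal subgroup `R`; it belongs to the block `B` (`Wgt`) if the block of `ξ` induces `B`, that is,
  the central character of `ξ` at the restriction to `N_G(R)` of any class function `f` of `G` is `B f`;
* `Wts p red B` is the set of the classes of weights of `B`: the weights `(R, ξ)` of `B` with `R` in a set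
  of representatives of the classes of `p`-subgroups;
* `AwcN p red G`: Alperin's weight conjecture for all `p`-blocks `B` of `G`, `|IBrB B| = |Wts p red B|`;
* `InvA B α`: the block `B` is invariant under the automorphism `α`;
* `ImgC α φ φ'`: `α` maps the character `φ` to `φ'`, `φ'(α(x)) = φ(x)`; `ImgW α w w'`: `α` maps the class
  of the weight `w` to the class of `w'`, that is, `w'` is the image of `w` under `x ↦ g α(x) g⁻¹` for some
  `g` in `G`;
* `AwcF p red G`: for all automorphisms `α` of `G` and all `α`-invariant blocks `B` the number of the
  `α`-invariant characters in `IBrB B` is equal to the number of the `α`-invariant classes of weights of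
  `B`;
* `AwcE p red G`: for all `α` and all `α`-invariant blocks `B` there is a bijection `e` from `IBrB B` to
  the classes of weights of `B` such that `α` maps the class `e φ` to the class `e φ'` whenever it maps
  `φ` to `φ'`.
-/

set_option autoImplicit false

open scoped Classical

namespace Pool.Agent.Results.MP_78bba1_al.EquivariantWeights

open Pool.Agent.N20.EW

/-- Let `p` be a prime. Alperin's weight conjecture for all blocks of all finite groups is equivalent to
each of the following statements for all finite groups `G`.
1. For all automorphisms `α` of `G` and all `α`-invariant blocks `B` the number of the `α`-invariant
irreducible characters over `F` in `B` is equal to the number of the `α`-invariant classes of weights of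
`B`.
2. For all automorphisms `α` of `G` and all `α`-invariant blocks `B` there is a bijection from the
irreducible characters over `F` in `B` to the classes of weights of `B` which commutes with the action of
`α`. -/
theorem result (p : ℕ) [Fact p.Prime] (F : Type) [Field F] [IsAlgClosed F] [CharP F p]
    (red : integralClosure ℤ ℂ →+* F) :
    ((∀ (G : Type) [Group G] [Finite G], AwcN p red G) ↔
      ∀ (G : Type) [Group G] [Finite G], AwcF p red G) ∧
    ((∀ (G : Type) [Group G] [Finite G], AwcN p red G) ↔
      ∀ (G : Type) [Group G] [Finite G], AwcE p red G) :=
  main p F red

end Pool.Agent.Results.MP_78bba1_al.EquivariantWeights
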