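import Pool.Agent.N85.AW.Fin
import Pool.Agent.N85.AW.Dens
import Pool.Agent.N85.AW.Rel
import Pool.Agent.N85.AW.Hig
import Pool.Agent.N85.AW.Brg
import Pool.Agent.N85.AW.Dup
import Pool.Agent.N85.AW.Ddn
import Pool.Agent.N85.AW.Loc
import Pool.Agent.N85.AW.Cov
import Pool.Agent.N85.AW.Rec
import Pool.Agent.N85.AW.Wpg
import Pool.Agent.N85.AW.Wup
import Pool.Agent.N85.AW.Wlo
import Pool.Agent.N85.AW.Tww
import Pool.Agent.N85.AW.Rsep
import Pool.Agent.N85.AW.Idl
import Pool.Agent.N85.AW.Grow

/-!
# Alperin's weight conjecture and groups generated by copies of a given group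

`F` is an algebraically closed field of characteristic `p` and `red` a ring homomorphism from the ring
of all complex algebraic integers to `F`. The elements of the group algebra `F[G]` are the functions
`G → F`, those of its centre the class functions. The blocks of `G` are given by their central
characters.

Proof. Let `B` be a block of `H`. There is a central idempotent `z` of `F[H]`, supported on the
commutator subgroup, such that the blocks of `H` under `z` are twists of `B` by linear characters, so the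
numbers `l`, `w` of the irreducible `F`-characters and of the weights under `z` are `N l(B)`, `N w(B)`
with the same `N`. Let `T = S^r`, `n = |T|`, and let `Γ` be the kernel of the homomorphism
`(H^k) ≀ T → H^k/[H^k, H^k]`, the product of the components. The element `z ⊗ ⋯ ⊗ z` of the group
algebra of the base group is supported on its intersection with `Γ`, whose index in the base group is
bounded independently of `r` and whose index in `Γ` is `n`. The group `Γ` is generated by subgroups
isomorphic to `S`. Both numbers are `l^(kn)`, `w^(kn)` for the base group; when one passes to a normal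
subgroup of index `m` or back they change at most by the factor `64^m`. So `l ≤ |Γ|^o(1) w` for `Γ` gives
`l^(kn) ≤ c(k) 64^n |Γ|^o(1) w^(kn)`; let `r → ∞` and then `k → ∞`.
-/

set_option autoImplicit false

open scoped Classical

noncomputable section

namespace Pool.Agent.Results.MP_78bba1_al.GeneratedByCopies

/-- `φ` is the character of an irreducible finite-dimensional representation of `G` over `K`. -/
def IsIrr {K : Type} [Field K] {G : Type} [Group G] (φ : G → K) : Prop :=
  ∃ (V : Type) (_ : AddCommGroup V) (_ : Module K V) (_ : FiniteDimensional K V)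
    (ρ : Representation K G V), ρ.IsIrreducible ∧ φ = ρ.character

/-- `f` is a class function. -/
def IsClassFun {K G : Type} [Group G] (f : G → K) : Prop := ∀ g x : G, f (g * x * g⁻¹) = f x

/-- `B` is (the central character of) a block of `G`: an algebra homomorphism from the centre of `F[G]`
to `F`. (The values of `B` at functions which are not class functions are irrelevant.) -/
def IsBlock {F : Type} [Field F] {G : Type} [Group G] (B : (G → F) → F) : Prop :=
  (∀ f g : G → F, IsClassFun f → IsClassFun g → B (f + g) = B f + B g) ∧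
  (∀ (a : F) (f : G → F), IsClassFun f → B (a • f) = a * B f) ∧
  B (Pi.single 1 1) = 1 ∧
  ∀ f g : G → F, IsClassFun f → IsClassFun g →
    B (fun x => ∑ᶠ y : G, f y * g (y⁻¹ * x)) = B f * B g

/-- `l(B)`: the number of the irreducible characters of `G` over `F` in the block `B`, that is, on which
every central element `f` of `F[G]` acts as the scalar `B f`. -/
def lB {F : Type} [Field F] {G : Type} [Group G] (B : (G → F) → F) : ℕ :=
  Nat.card {φ : G → F // IsIrr φ ∧
    ∀ f : G → F, IsClassFun f → ∀ x : G, ∑ᶠ g : G, f g * φ (g * x) = B f * φ x}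

/-- The reduction map `red`, extended by zero to all complex numbers. -/
def redC {F : Type} [Field F] (red : integralClosure ℤ ℂ →+* F) (a : ℂ) : F :=
  if h : IsIntegral ℤ a then red ⟨a, h⟩ else 0

/-- `∑_C f(C) · red (|C| χ(C) / χ(1))`, the sum over the conjugacy classes `C` of `J`: the value of the
reduction of the central character of `χ` at the central element `f` of `F[J]`. -/
def centralValue {F : Type} [Field F] (red : integralClosure ℤ ℂ →+* F) {J : Type} [Group J]
    (χ : J → ℂ) (f : J → F) : F :=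
  ∑ᶠ C : ConjClasses J, f C.out * redC red ((Nat.card C.carrier : ℂ) * χ C.out / χ 1)

/-- `χ` is the inflation to `J` of an irreducible complex character of `J/Q` of `p`-defect zero (for a
normal subgroup `Q` of `J`). -/
def IsInfDefectZero (p : ℕ) {J : Type} [Group J] (Q : Subgroup J) (χ : J → ℂ) : Prop :=
  IsIrr χ ∧ (∀ q ∈ Q, ∀ x : J, χ (q * x) = χ x) ∧
    ∃ n : ℕ, χ 1 = (n : ℂ) ∧
      n.factorization p + (Nat.card Q).factorization p = (Nat.card J).factorization p

/-- Conjugacy of `p`-subgroups of `G`. -/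
def pSub (p : ℕ) (G : Type) [Group G] : Setoid {Q : Subgroup G // IsPGroup p Q} where
  r Q R := ∃ g : G, R.1 = Q.1.map (MulAut.conj g).toMonoidHom
  iseqv :=
  { refl := fun Q => ⟨1, by ext x; simp [Subgroup.mem_map]⟩
    symm := by
      rintro Q R ⟨g, hg⟩
      refine ⟨g⁻¹, ?_⟩
      rw [hg, Subgroup.map_map]
      ext x
      simp [Subgroup.mem_map, mul_assoc]
    trans := by
      rintro Q R S ⟨g, hg⟩ ⟨h, hh⟩
      refine ⟨h * g, ?_⟩
      rw [hh, hg, Subgroup.map_map]
      ext x
      simp [Subgroup.mem_map, mul_assoc] }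

/-- `w(B)`: the number of `G`-classes of weights of `B`. For representatives `Q` of the `G`-classes of
`p`-subgroups count the characters `χ` of `N_G(Q)` inflated from characters of `N_G(Q)/Q` of defect zero
such that the block of `G` induced by the block of `χ` is `B`, that is, the reduction of the central
character of `χ` takes the value `B f` at the restriction to `N_G(Q)` of every class function `f`. -/
def wB (p : ℕ) {F : Type} [Field F] (red : integralClosure ℤ ℂ →+* F) {G : Type} [Group G]
    (B : (G → F) → F) : ℕ :=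
  ∑ᶠ q : Quotient (pSub p G),
    Nat.card {χ : Subgroup.normalizer (q.out.1 : Set G) → ℂ //
      IsInfDefectZero p (q.out.1.subgroupOf (Subgroup.normalizer (q.out.1 : Set G))) χ ∧
      ∀ f : G → F, IsClassFun f → centralValue red χ (fun x => f x) = B f}

/-- `G` is generated by its subgroups isomorphic to `S`. -/
def GeneratedByCopies (S G : Type) [Group S] [Group G] : Prop :=
  ⨆ S' : {S' : Subgroup G // Nonempty (S' ≃* S)}, S'.1 = ⊤

theorem block_iff {F : Type} [Field F] {G : Type} [Group G] (B : (G → F) → F) :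
    IsBlock B ↔ Pool.Agent.Y63.NV.IsBlock B :=
  ⟨fun h => ⟨h.1, h.2.1, h.2.2.1, h.2.2.2⟩, fun h => ⟨h.add, h.smul, h.one, h.mul⟩⟩

theorem wB_eq (p : ℕ) {F : Type} [Field F] (red : integralClosure ℤ ℂ →+* F) {G : Type} [Group G]
    (B : (G → F) → F) : wB p red B = Pool.Agent.N85.WM.numWts p red B := by
  refine finsum_congr fun q => Nat.card_congr (Equiv.subtypeEquivRight fun χ => ?_)
  exact ⟨fun h => ⟨⟨h.1.1, h.1.2.1, h.1.2.2⟩, h.2⟩,
    fun h => ⟨⟨h.1.irr, h.1.inflated, h.1.defectZero⟩, h.2⟩⟩

theorem perfect_of {S G : Type} [Group S] [Group G] (hS : commutator S = ⊤)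
    (h : GeneratedByCopies S G) : commutator G = ⊤ := by
  rw [eq_top_iff]
  unfold GeneratedByCopies at h
  rw [← h]
  refine iSup_le fun S' => ?_
  obtain ⟨e⟩ := S'.2
  have h1 : commutator S'.1 = ⊤ := by
    have h2 : (commutator S).map e.symm.toMonoidHom = commutator S'.1 := by
      unfold commutator
      rw [Subgroup.map_commutator]
      have h3 : (⊤ : Subgroup S).map e.symm.toMonoidHom = ⊤ :=
        Subgroup.map_top_of_surjective _ e.symm.surjective
      rw [h3]
    rw [← h2, hS]
    exact Subgroup.map_top_of_surjective _ e.symm.surjective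
  have h4 : S'.1 = (commutator S'.1).map S'.1.subtype := by
    rw [h1, ← MonoidHom.range_eq_map, Subgroup.range_subtype]
  rw [h4]
  unfold commutator
  rw [Subgroup.map_commutator]
  exact Subgroup.commutator_mono le_top le_top

theorem apxL_iff (p : ℕ) {F : Type} [Field F] (red : integralClosure ℤ ℂ →+* F) (S : Type)
    [Group S] : (∀ ε : ℝ, 0 < ε → ∃ C : ℝ, ∀ (G : Type) [Group G] [Finite G],
      GeneratedByCopies S G → ∀ B : (G → F) → F, IsBlock B →
        (lB B : ℝ) ≤ C * (Nat.card G : ℝ) ^ ε * wB p red B) ↔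
      Pool.Agent.N85.AW.ApxL p red S := by
  refine forall_congr' fun ε => imp_congr_right fun _ => exists_congr fun C => ?_
  constructor
  · intro h G _ _ hG B hB
    have h3 := h G hG B ((block_iff B).mpr hB)
    rw [wB_eq] at h3
    exact h3
  · intro h G _ _ hG B hB
    rw [wB_eq]
    exact h G hG B ((block_iff B).mp hB)

theorem apxW_iff (p : ℕ) {F : Type} [Field F] (red : integralClosure ℤ ℂ →+* F) (S : Type)
    [Group S] : (∀ ε : ℝ, 0 < ε → ∃ C : ℝ, ∀ (G : Type) [Group G] [Finite G],
      GeneratedByCopies S G → ∀ B : (G → F) → F, IsBlock B →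
        (wB p red B : ℝ) ≤ C * (Nat.card G : ℝ) ^ ε * lB B) ↔
      Pool.Agent.N85.AW.ApxW p red S := by
  refine forall_congr' fun ε => imp_congr_right fun _ => exists_congr fun C => ?_
  constructor
  · intro h G _ _ hG B hB
    have h3 := h G hG B ((block_iff B).mpr hB)
    rw [wB_eq] at h3
    exact h3
  · intro h G _ _ hG B hB
    rw [wB_eq]
    exact h G hG B ((block_iff B).mp hB)

/-- **Alperin's weight conjecture and groups generated by copies of a given group.** Let `S` be a
nontrivial finite group.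
(1) `l(B) ≤ w(B)` for all blocks `B` of all finite groups if and only if for every `ε > 0` there is a
constant `C` such that `l(B) ≤ C |G|^ε w(B)` for all blocks `B` of all finite groups `G` generated by
subgroups isomorphic to `S`.
(2) The same for `w(B) ≤ l(B)`.
(3) The (blockwise) weight conjecture at `p` holds for all finite groups if and only if for every `ε > 0`
there is a constant `C` such that `l(B) ≤ C |G|^ε w(B)` and `w(B) ≤ C |G|^ε l(B)` for all blocks `B` of
all finite groups `G` generated by subgroups isomorphic to `S`.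
(4) If `S` is perfect, then the groups generated by subgroups isomorphic to `S` are perfect. -/
theorem result (p : ℕ) [Fact p.Prime] (F : Type) [Field F] [IsAlgClosed F] [CharP F p]
    (red : integralClosure ℤ ℂ →+* F) (S : Type) [Group S] [Finite S] [Nontrivial S] :
    ((∀ (G : Type) [Group G] [Finite G], ∀ B : (G → F) → F, IsBlock B → lB B ≤ wB p red B) ↔
      ∀ ε : ℝ, 0 < ε → ∃ C : ℝ, ∀ (G : Type) [Group G] [Finite G], GeneratedByCopies S G →
        ∀ B : (G → F) → F, IsBlock B → (lB B : ℝ) ≤ C * (Nat.card G : ℝ) ^ ε * wB p red B) ∧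
    ((∀ (G : Type) [Group G] [Finite G], ∀ B : (G → F) → F, IsBlock B → wB p red B ≤ lB B) ↔
      ∀ ε : ℝ, 0 < ε → ∃ C : ℝ, ∀ (G : Type) [Group G] [Finite G], GeneratedByCopies S G →
        ∀ B : (G → F) → F, IsBlock B → (wB p red B : ℝ) ≤ C * (Nat.card G : ℝ) ^ ε * lB B) ∧
    ((∀ (G : Type) [Group G] [Finite G], ∀ B : (G → F) → F, IsBlock B → lB B = wB p red B) ↔
      ∀ ε : ℝ, 0 < ε → ∃ C : ℝ, ∀ (G : Type) [Group G] [Finite G], GeneratedByCopies S G →
        ∀ B : (G → F) → F, IsBlock B →
          (lB B : ℝ) ≤ C * (Nat.card G : ℝ) ^ ε * wB p red B ∧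
          (wB p red B : ℝ) ≤ C * (Nat.card G : ℝ) ^ ε * lB B) ∧
    (commutator S = ⊤ → ∀ (G : Type) [Group G], GeneratedByCopies S G → commutator G = ⊤) := by
  have hREL := Pool.Agent.N85.AW.Rel.main Pool.Agent.N85.AW.Dens.main
  have hDUPK := Pool.Agent.N85.AW.Dup.main hREL Pool.Agent.N85.AW.Hig.main (Pool.Agent.N85.AW.Brg.main Pool.Agent.N85.AW.Dens.main)
  have hLOC : Pool.Agent.N85.AW.S_LOC := fun p _ F _ red K _ _ M E _ z c hz hM =>
    Pool.Agent.N85.AW.Loc.main p F red K M E z c hz hM
  have hREC := Pool.Agent.N85.AW.Rec.main hLOC Pool.Agent.N85.AW.Cov.main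
  have hWUP := Pool.Agent.N85.AW.Wup.main hDUPK hLOC Pool.Agent.N85.AW.Wpg.main
  have hWLO := Pool.Agent.N85.AW.Wlo.main hREC Pool.Agent.N85.AW.Ddn.main hLOC
  have hIDL := Pool.Agent.N85.AW.Idl.main Pool.Agent.N85.AW.Tww.main Pool.Agent.N85.AW.Rsep.main
  have hGROW := Pool.Agent.N85.AW.Grow.main
  have one : ∀ (G : Type) [Group G] [Finite G] (ε : ℝ), 0 < ε → (1 : ℝ) ≤ (Nat.card G : ℝ) ^ ε :=
    fun G _ _ ε hε => Real.one_le_rpow (by exact_mod_cast Nat.card_pos) hε.le
  have b1 : (∀ (G : Type) [Group G] [Finite G], ∀ B : (G → F) → F, IsBlock B →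
      lB B ≤ wB p red B) → ∀ ε : ℝ, 0 < ε → ∀ (G : Type) [Group G] [Finite G],
        ∀ B : (G → F) → F, IsBlock B → (lB B : ℝ) ≤ 1 * (Nat.card G : ℝ) ^ ε * wB p red B := by
    intro h ε hε G _ _ B hB
    have h1 : (lB B : ℝ) ≤ wB p red B := by exact_mod_cast h G B hB
    rw [one_mul]
    exact h1.trans (le_mul_of_one_le_left (Nat.cast_nonneg _) (one G ε hε))
  have b2 : (∀ (G : Type) [Group G] [Finite G], ∀ B : (G → F) → F, IsBlock B →
      wB p red B ≤ lB B) → ∀ ε : ℝ, 0 < ε → ∀ (G : Type) [Group G] [Finite G],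
        ∀ B : (G → F) → F, IsBlock B → (wB p red B : ℝ) ≤ 1 * (Nat.card G : ℝ) ^ ε * lB B := by
    intro h ε hε G _ _ B hB
    have h1 : (wB p red B : ℝ) ≤ lB B := by exact_mod_cast h G B hB
    rw [one_mul]
    exact h1.trans (le_mul_of_one_le_left (Nat.cast_nonneg _) (one G ε hε))
  have a1 : (∀ ε : ℝ, 0 < ε → ∃ C : ℝ, ∀ (G : Type) [Group G] [Finite G],
      GeneratedByCopies S G → ∀ B : (G → F) → F, IsBlock B →
        (lB B : ℝ) ≤ C * (Nat.card G : ℝ) ^ ε * wB p red B) →
      ∀ (G : Type) [Group G] [Finite G], ∀ B : (G → F) → F, IsBlock B →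
        lB B ≤ wB p red B := by
    intro h G _ _ B hB
    rw [apxL_iff] at h
    rw [wB_eq]
    exact Pool.Agent.N85.AW.coreL red S hREL hWUP hWLO hIDL hGROW h G B
      ((block_iff B).mp hB)
  have a2 : (∀ ε : ℝ, 0 < ε → ∃ C : ℝ, ∀ (G : Type) [Group G] [Finite G],
      GeneratedByCopies S G → ∀ B : (G → F) → F, IsBlock B →
        (wB p red B : ℝ) ≤ C * (Nat.card G : ℝ) ^ ε * lB B) →
      ∀ (G : Type) [Group G] [Finite G], ∀ B : (G → F) → F, IsBlock B →
        wB p red B ≤ lB B := by
    intro h G _ _ B hB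
    rw [apxW_iff] at h
    rw [wB_eq]
    exact Pool.Agent.N85.AW.coreW red S hREL hWUP hWLO hIDL hGROW h G B
      ((block_iff B).mp hB)
  refine ⟨⟨fun h ε hε => ⟨1, fun G _ _ _ B hB => b1 h ε hε G B hB⟩, a1⟩,
    ⟨fun h ε hε => ⟨1, fun G _ _ _ B hB => b2 h ε hε G B hB⟩, a2⟩, ⟨fun h ε hε => ?_, fun h => ?_⟩,
    fun hS G _ hG => perfect_of hS hG⟩
  · exact ⟨1, fun G _ _ _ B hB => ⟨b1 (fun G _ _ B hB => (h G B hB).le) ε hε G B hB,
      b2 (fun G _ _ B hB => (h G B hB).ge) ε hε G B hB⟩⟩
  · intro G _ _ B hB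
    refine le_antisymm (a1 (fun ε hε => ?_) G B hB) (a2 (fun ε hε => ?_) G B hB)
    · obtain ⟨C, hC⟩ := h ε hε
      exact ⟨C, fun G _ _ hG B hB => (hC G hG B hB).1⟩
    · obtain ⟨C, hC⟩ := h ε hε
      exact ⟨C, fun G _ _ hG B hB => (hC G hG B hB).2⟩

end Pool.Agent.Results.MP_78bba1_al.GeneratedByCopies
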